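import Pool.Agent.Helper9.CC.Stm
import Pool.Agent.Helper9.PP.Num

/-!
Project CC (helper9), package AMP: the ample line bundles.
-/

set_option autoImplicit false

namespace Pool.Agent.Helper45.CC

open FF Module MvPolynomial Pool.Agent.Helper9.FJ Pool.Agent.Helper9.PP Pool.Agent.Helper9.FL
  Pool.Agent.Helper9.CC

theorem ddeg_nsmul' {K : Type} [Field K] [Algebra ℂ K] [IsFF ℂ K] (n : ℕ) (b : Place ℂ K →₀ ℤ) :
    ddeg (n • b) = n * ddeg b := by
  have h1 : n • b = ∑ _i : Fin n, b := by
    rw [Finset.sum_const, Finset.card_univ, Fintype.card_fin]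
  rw [h1, ddeg_sum, Finset.sum_const, Finset.card_univ, Fintype.card_fin, nsmul_eq_mul]

theorem amp (hmin : S_MIN) (pos : S_POS) (va : S_VA) : S_AMP := by
  intro K _ _ _ l r E W hW hr
  have hr0 : ∀ j, 0 < r j := fun j => by have := hr j; omega
  choose R Λ Y d hR _ hQ hS using fun j => hmin (E j) (hr0 j)
  refine ⟨fun j => (ddeg (d j) : ℚ) / R j, ?_, ?_⟩
  · intro j
    have h1 := slope_det E hr0 hS j
    have h2 : (0 : ℝ) < r j := by exact_mod_cast hr0 j
    push_cast
    rw [le_div_iff₀ h2]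
    exact h1
  · obtain ⟨μ', hμ', hpos⟩ := pos E hr
    have hle : ∀ j, μ' j ≤ (((ddeg (d j) : ℚ) / R j : ℚ) : ℝ) := by
      intro j
      have h2 : (0 : ℝ) < R j := by exact_mod_cast hR j
      push_cast
      rw [le_div_iff₀ h2]
      exact hμ' j (R j) (Λ j) (d j) (hR j) (hQ j)
    intro a b
    constructor
    · intro h
      obtain ⟨h1, h2⟩ := hpos a b h
      refine ⟨h1, lt_of_lt_of_le h2 ?_⟩
      have h3 : ∑ j, (a j : ℝ) * μ' j ≤ ∑ j, (a j : ℝ) * (((ddeg (d j) : ℚ) / R j : ℚ) : ℝ) :=
        Finset.sum_le_sum fun j _ => mul_le_mul_of_nonneg_left (hle j) (Nat.cast_nonneg _)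
      linarith
    · rintro ⟨h1, h2⟩
      set s : ℝ := ∑ j, (a j : ℝ) * (((ddeg (d j) : ℚ) / R j : ℚ) : ℝ) + ddeg b with hs
      obtain ⟨n, hn⟩ := exists_nat_gt ((ddeg W : ℝ) / s)
      rw [div_lt_iff₀ h2] at hn
      refine ⟨n + 2, by omega, ?_⟩
      have h3 : (n + 2) • a = a + a + n • a := by
        rw [add_smul, two_smul, add_comm]
      have h4 : (n + 2) • b = b + b + n • b := by
        rw [add_smul, two_smul, add_comm]
      rw [h3, h4]
      refine va hW E (fun j => ((ddeg (d j) : ℝ) / R j)) hr0 hS a a (n • a) b b (n • b) h1 h1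
        ?_ ?_ ?_
      · have h5 := h2
        rw [hs] at h5
        push_cast at h5
        exact h5
      · have h5 := h2
        rw [hs] at h5
        push_cast at h5
        exact h5
      · have h6 : ∑ j, (((n • a) j : ℕ) : ℝ) * ((ddeg (d j) : ℝ) / R j) + (ddeg (n • b) : ℝ) =
            n * s := by
          rw [hs, ddeg_nsmul', mul_add, Finset.mul_sum]
          push_cast
          congr 1
          refine Finset.sum_congr rfl fun j _ => ?_
          rw [Pi.smul_apply, smul_eq_mul]
          push_cast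
          ring
        rw [h6]
        exact hn

end Pool.Agent.Helper45.CC
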